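import Pool.Agent.Z125.UN.MotUni
import Pool.Agent.Z125.UN.Sym

/-!
# Schur-finiteness of motives and trilinear forms
-/

set_option autoImplicit false

open CategoryTheory MonoidalCategory AlgebraicGeometry Pool.Agent.TH137.DG Pool.Agent.Y116.UV
  Pool.Agent.Z125.UN

namespace Pool.Agent.Results.MP_fc2ced_ag.CubicHypersurfaces

universe v u

variable {k : Type} [Field k] {C : Type u} [Category.{v} C] [MonoidalCategory C]
  [SymmetricCategory C] [Preadditive C] [Linear ℚ C] [Limits.HasZeroObject C] [HasShift C ℤ]
  [∀ n : ℤ, (shiftFunctor C n).Additive] [Pretriangulated C] {D : Motives k C}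

lemma hyp_sf (hD : IsMotives D) {a b c : ℕ} (T : Fin a → Fin b → Fin c → k) :
    IsSchurFinite (D.M (hypS T)) ↔ IsSchurFinite (D.Mc (hypS T)) :=
  hD.duality _ (ft_aff True) (smooth_hypS T)

/-- **Schur-finiteness of motives and trilinear forms.** For all `n`, the motives of the smooth
separated schemes of finite type and dimension at most `n` over the perfect field `k` are
Schur-finite if and only if the motives of the smooth affine cubic hypersurfaces `T(x, y, z) = 1` are
Schur-finite for all trilinear forms `T` one of whose three blocks of variables has at most `n + 2`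
variables. The motives of the hypersurfaces `T(x, y, z) = 1` are Schur-finite for all trilinear forms
`T` one of whose blocks of variables has at most three variables. -/
theorem result [PerfectField k] (hD : IsMotives D) :
    (∀ n : ℕ,
      (∀ X : Sch k, FT True X → Smooth X.hom → topologicalKrullDim X.left ≤ n →
        IsSchurFinite (D.M X)) ↔
      ∀ (a b c : ℕ) (T : Fin a → Fin b → Fin c → k), (a ≤ n + 2 ∨ b ≤ n + 2 ∨ c ≤ n + 2) →
        IsSchurFinite (D.M (hypS T))) ∧
    ∀ (a b c : ℕ) (T : Fin a → Fin b → Fin c → k), (a ≤ 3 ∨ b ≤ 3 ∨ c ≤ 3) →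
      IsSchurFinite (D.M (hypS T)) := by
  have key : ∀ n : ℕ,
      (∀ X : Sch k, FT True X → Smooth X.hom → topologicalKrullDim X.left ≤ n →
        IsSchurFinite (D.M X)) ↔
      ∀ (a b c : ℕ) (T : Fin a → Fin b → Fin c → k), (a ≤ n + 2 ∨ b ≤ n + 2 ∨ c ≤ n + 2) →
        IsSchurFinite (D.M (hypS T)) := by
    intro n
    have hB := bnd_sf hD
    constructor
    · intro h a b c T hm
      have h1 : ∀ X : Sch k, FT True X → topologicalKrullDim X.left ≤ n →
          IsSchurFinite (D.Mc X) :=
        dim_smooth hB n fun X hX hs hn => (hD.duality X hX hs).mp (h X hX hs hn)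
      have h2 : ∀ I : Ideal (MvPolynomial (Fin (n + 1)) k),
          IsSchurFinite (D.Mc (aff k (MvPolynomial (Fin (n + 1)) k ⧸ I))) :=
        dim_to_closed hB fun A _ _ _ hA => h1 _ (ft_aff True) (by rw [topDim_aff]; exact hA)
      rw [hyp_sf hD]
      exact of_block hB (fun a b c' hc' T => to_tri hB h2 a b c' hc' T) T hm
    · intro h X hX hs hn
      rw [hD.duality X hX hs]
      exact (dim_tri hB n).mpr (fun a b T =>
        (hyp_sf hD T).mp (h a b (n + 2) T (Or.inr (Or.inr le_rfl)))) X hX hn
  refine ⟨key, (key 1).mp fun X hX hs hn => hD.curves X hX hs ?_⟩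
  exact_mod_cast hn

end Pool.Agent.Results.MP_fc2ced_ag.CubicHypersurfaces
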