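import Pool.Agent.Y456.LG.Mot

/-!
# Schur-finiteness of motives and sparse linear sections of `GL_m`

Let `k` be a perfect field and let `M` be a square matrix of polynomials over `k` each of whose entries is
a constant or a variable and in which each of the `d` variables occurs, with at most three nonzero entries
in every row and in every column (`IsPat S M`, `Thin M`; the constants are in the set `S`, which is all of
`k`, or `{0, 1}` if all elements of `k` are fractions of integers). The points `x` of the affine space `𝔸^d`
such that `M(x)` is invertible form the scheme `secGL M`, a smooth affine linear section of `GL_m` of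
dimension `d` (if it is not empty).

1. For each `n`, the motives of all smooth separated schemes of finite type over `k` and of dimension at
   most `n` are Schur-finite if and only if the motives of the sparse linear sections of dimension `n + 1`
   are Schur-finite.
2. For each smooth `X` of dimension at most `n` there are finitely many sparse linear sections of
   dimension `n + 1` such that the motive of `X` is Schur-finite if their motives are Schur-finite.

The motives are given by their known properties (`IsMotives`).
-/

set_option autoImplicit false

open CategoryTheory MonoidalCategory AlgebraicGeometry Pool.Agent.TH137.DG Pool.Agent.Y116.UV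
  Pool.Agent.Z125.UN Pool.Agent.Y456.LG MvPolynomial

namespace Pool.Agent.Results.MP_fc2ced_ag.SparseLinearSections

universe v u

/-- Schur-finiteness of the motives of smooth schemes of dimension at most `n` over a perfect field is
equivalent to Schur-finiteness of the motives of the sparse linear sections of `GL_m` of dimension `n + 1`,
and each smooth scheme of dimension at most `n` is decided by finitely many of them. -/
theorem result (k : Type) [Field k] [PerfectField k] (S : Set k)
    (hS : S = Set.univ ∨ (S = {0, 1} ∧ IsFrac k)) :
    (∀ (C : Type u) [Category.{v} C] [MonoidalCategory C] [SymmetricCategory C] [Preadditive C]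
      [Linear ℚ C] [Limits.HasZeroObject C] [HasShift C ℤ]
      [∀ n : ℤ, (shiftFunctor C n).Additive] [Pretriangulated C] (D : Motives k C), IsMotives D →
      ∀ n : ℕ, (∀ X : Sch k, FT True X → Smooth X.hom → topologicalKrullDim X.left ≤ n →
          IsSchurFinite (D.M X)) ↔
        ∀ (m : ℕ) (M : Matrix (Fin m) (Fin m) (MvPolynomial (Fin (n + 1)) k)), IsPat S M →
          Thin M → IsSchurFinite (D.M (secGL M))) ∧
    ∀ (n : ℕ) (X : Sch k), FT True X → Smooth X.hom → topologicalKrullDim X.left ≤ n →
      ∃ L : Mats k, (∀ x ∈ L, x.1 = n + 1 ∧ IsPat S x.2.2 ∧ Thin x.2.2) ∧
        ∀ (C : Type u) [Category.{v} C] [MonoidalCategory C] [SymmetricCategory C]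
          [Preadditive C] [Linear ℚ C] [Limits.HasZeroObject C] [HasShift C ℤ]
          [∀ n : ℤ, (shiftFunctor C n).Additive] [Pretriangulated C] (D : Motives k C),
          IsMotives D → (∀ x ∈ L, IsSchurFinite (D.M (secGL x.2.2))) → IsSchurFinite (D.M X) := by
  refine ⟨fun C _ _ _ _ _ _ _ _ _ D hD n => mot_iff (enough_or hS) hD n, ?_⟩
  intro n X hX hs hn
  obtain ⟨L, h1, h2⟩ := reach_dim (sep := True) (enough_or hS) X hX hn
  refine ⟨L, h1, fun C _ _ _ _ _ _ _ _ _ D hD h => ?_⟩
  rw [hD.duality X hX hs]
  exact h2 _ (bnd_sf hD) fun x hx => (sec_sf hD _).mp (h x hx)

end Pool.Agent.Results.MP_fc2ced_ag.SparseLinearSections
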